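import Pool.Agent.Helper57.NSDefs
import Pool.Agent.Helper57.NS.Main
import Pool.Agent.Helper57.NS.Cor

/-!
# When does a numerical semigroup attain the general bound on the number of minimal relations?

For `3 ≤ e < m`: `ℛ(e, m) = 𝒞(e, m)` if and only if `m < (e+2 choose 2)` and `ℤ/m` contains a
Sidon set (together with a few further sums) of the size prescribed by `m - e - 1`.
-/

namespace Pool.Agent.Results.MP_8fc134_al.SidonCriterion

open NS57

theorem r_eq_two {e m r : ℕ} (h1 : (e + r - 1).choose (r - 1) ≤ m) (h : m < (e + 2).choose 2)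
    (hem : e < m) (h2 : m < (e + r).choose r) : r = 2 := by
  rcases r with _ | _ | _ | r
  · simp at h1 h2; omega
  · simp at h1 h2; omega
  · rfl
  · exfalso
    have key : ∀ k, (e + 2).choose 2 ≤ b (k + 2) (e + 1) := by
      intro k
      induction k with
      | zero => rw [b_two]
      | succ k ih => exact ih.trans (b_le_succ_left _ _)
    have h3 := key r
    have h4 : b (r + 2) (e + 1) = (e + (r + 2)).choose (r + 2) := b_eq_choose _ _
    have h5 : e + (r + 1 + 1 + 1) - 1 = e + (r + 2) := by omega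
    have h6 : r + 1 + 1 + 1 - 1 = r + 2 := by omega
    rw [h5, h6] at h1
    omega

theorem result (e m r : ℕ) (he : 3 ≤ e) (hem : e < m)
    (h1 : (e + r - 1).choose (r - 1) ≤ m) (h2 : m < (e + r).choose r) :
    (rhoSet e m).Nonempty ∧ BddAbove (rhoSet e m) ∧
    (sSup (rhoSet e m) = CC e m r ↔ r = 2 ∧ Cond m (m - e - 1)) ∧
    ∀ d t : ℕ, t ≤ d → m = e + 1 + (d + 1).choose 2 + t →
      (sSup (rhoSet e m) = CC e m r → d ^ 2 + d + 1 ≤ m) ∧
      ((∃ p : ℕ, p.Prime ∧ d + 2 ≤ p ∧ 4 * p ^ 2 ≤ m) → sSup (rhoSet e m) = CC e m r) ∧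
      (m = d ^ 2 + d + 1 → t = 0 →
        (sSup (rhoSet e m) = CC e m r ↔ PerfectDifferenceSet m d)) := by
  obtain ⟨k1, k2, k3⟩ := main he hem h1 h2
  refine ⟨k1, k2, k3, fun d t htd hm => ⟨fun h => ?_, fun ⟨p, hp, hdp, hpm⟩ => ?_, fun hm2 ht => ?_⟩⟩
  · have h4 := (k3.1 h).2
    rw [show m - e - 1 = (d + 1).choose 2 + t by omega] at h4
    exact cond_necessary (by omega) htd h4
  · have hch : 2 * (d + 1).choose 2 = d * (d + 1) := by
      have := two_f_one d
      rwa [f_one] at this
    have hch2 : 2 * (e + 2).choose 2 = (e + 1) * (e + 2) := by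
      have := two_f_one (e + 1)
      rwa [f_one] at this
    have hp2 : (d + 2) ^ 2 ≤ p ^ 2 := Nat.pow_le_pow_left hdp 2
    have hr : r = 2 := r_eq_two h1 (by nlinarith) hem h2
    refine k3.2 ⟨hr, ?_⟩
    rw [show m - e - 1 = (d + 1).choose 2 + t by omega]
    exact cond_sufficient hp hdp hpm htd
  · subst ht
    have hch : 2 * (d + 1).choose 2 = d * (d + 1) := by
      have := two_f_one d
      rwa [f_one] at this
    have hch2 : 2 * (e + 2).choose 2 = (e + 1) * (e + 2) := by
      have := two_f_one (e + 1)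
      rwa [f_one] at this
    have hr : r = 2 := r_eq_two h1 (by nlinarith) hem h2
    have h4 : Cond m ((d + 1).choose 2) ↔ PerfectDifferenceSet m d := cond_planar hm2
    refine Iff.trans k3 ?_
    rw [show m - e - 1 = (d + 1).choose 2 by omega, h4]
    exact ⟨fun h => h.2, fun h => ⟨hr, h⟩⟩

end Pool.Agent.Results.MP_8fc134_al.SidonCriterion
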